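import Pool.Agent.KS6_36.NoMoment.Scale
import Pool.Graph.R_seed8.R196.PP.Pos

set_option autoImplicit false

namespace Pool.Agent.KS6_36.NoMoment

open MeasureTheory ProbabilityTheory Filter Topology
open scoped ENNReal BigOperators
open Pool.Agent.R196.PP Pool.Agent.R325.PP

/-! ### The moment in the direction `e₁` -/

theorem sig_ge2 (s : Scales) (k : ℕ) :
    1 ≤ 30 * (s.kap (k + 1) : ℝ) ^ 4 * s.L (k + 1) * (sig s k / 2) := by
  have hkap1 := kap_ge_one s k
  have hM : (3 : ℝ) ^ s.aM (k + 1) ≤ 3 * ((s.kap (k + 1) : ℝ) ^ 2 * s.L (k + 1)) := by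
    exact_mod_cast s.upM k
  have hN : (5 : ℝ) ^ s.bN (k + 1) ≤ 5 * ((s.kap (k + 1) : ℝ) ^ 2 * s.L (k + 1)) := by
    exact_mod_cast s.upN k
  have hL0 : (0 : ℝ) < s.L (k + 1) := by exact_mod_cast L_pos s k
  set κ := (s.kap (k + 1) : ℝ) with hκ
  set L := (s.L (k + 1) : ℝ) with hLd
  have hMN : (3 : ℝ) ^ s.aM (k + 1) * 5 ^ s.bN (k + 1) ≤ 15 * κ ^ 4 * L ^ 2 := by
    calc (3 : ℝ) ^ s.aM (k + 1) * 5 ^ s.bN (k + 1) ≤ (3 * (κ ^ 2 * L)) * (5 * (κ ^ 2 * L)) :=
          mul_le_mul hM hN (by positivity) (by positivity)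
      _ = _ := by ring
  have hMN0 : (0 : ℝ) < 3 ^ s.aM (k + 1) * 5 ^ s.bN (k + 1) := by positivity
  have h2 : (L + 1) / (15 * κ ^ 4 * L ^ 2) ≤ sig s k := by
    unfold sig
    rw [← hLd]
    apply div_le_div_of_nonneg_left (by positivity) hMN0 hMN
  have hκ0 : 0 < κ := by linarith
  calc (1 : ℝ) ≤ (L + 1) / L := by
        rw [le_div_iff₀ hL0]; linarith
    _ = 30 * κ ^ 4 * L * ((L + 1) / (15 * κ ^ 4 * L ^ 2) / 2) := by
        field_simp
        norm_num
    _ ≤ _ := by gcongr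

/-- The condition on the radii. -/
def Good (φ : ℕ → ℝ≥0∞) (s : Scales) : Prop :=
  ∀ k : ℕ, ∀ n : ℕ, s.L (k + 1) ≤ n →
    ((30 * s.kap (k + 1) ^ 4 * k : ℕ) : ℝ≥0∞) * n ≤ φ n

theorem exists_good (φ : ℕ → ℝ≥0∞)
    (hφ : ∀ C : ℕ, ∃ n0 : ℕ, ∀ n ≥ n0, (C : ℝ≥0∞) * n ≤ φ n) : ∃ s : Scales, Good φ s := by
  choose ν hν using hφ
  obtain ⟨s, hs⟩ := exists_scales (fun k κ => ν (30 * κ ^ 4 * k))
  exact ⟨s, fun k n hn => hν _ n (le_trans (hs k) hn)⟩

theorem mom0 (φ : ℕ → ℝ≥0∞) (s : Scales) (hg : Good φ s) :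
    ∫⁻ ω in Om0 2, φ (gap ω 0 ((0 : Fin 2), true)) ∂(Qm s) = ∞ := by
  have hd := P9d_holds
  have : IsProbabilityMeasure muPh := P9a_holds
  have hQ : IsProbabilityMeasure (Qm s) :=
    Measure.isProbabilityMeasure_map (P9b_holds s).aemeasurable
  have hkey : ∀ k : ℕ, (k : ℝ≥0∞) ≤
      ∫⁻ ω in Om0 2, φ (gap ω 0 ((0 : Fin 2), true)) ∂(Qm s) := by
    intro k
    have h1 : ∫⁻ ω in Om0 2, (Tc s k).indicator (fun _ =>
        ((30 * s.kap (k + 1) ^ 4 * k : ℕ) : ℝ≥0∞) * (s.L (k + 1) : ℕ)) ω ∂(Qm s) ≤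
        ∫⁻ ω in Om0 2, φ (gap ω 0 ((0 : Fin 2), true)) ∂(Qm s) := by
      apply lintegral_mono_ae
      rw [ae_restrict_iff' om0_meas]
      filter_upwards [ae_exists P9c_holds s] with ω hω h0
      by_cases hT : ω ∈ Tc s k
      · rw [Set.indicator_of_mem hT]
        have h2 := gap_ge s k ω hT (hω h0)
        refine le_trans ?_ (hg k _ h2)
        gcongr
      · rw [Set.indicator_of_notMem hT]
        exact zero_le
    refine le_trans ?_ h1
    rw [lintegral_indicator_const (Tc_meas s k), Measure.restrict_apply (Tc_meas s k)]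
    have h2 : Tc s k ∩ Om0 2 = Tc s k := Set.inter_eq_left.2 fun ω hω => hω.1
    rw [h2, Qm_Tc P9b_holds]
    have h3 := Tk_ge hd s k
    have h5 := sig_ge2 s k
    have hsig : 0 ≤ sig s k := by unfold sig; positivity
    have h4 : ((30 * s.kap (k + 1) ^ 4 * k : ℕ) : ℝ≥0∞) * (s.L (k + 1) : ℕ) =
        ENNReal.ofReal (30 * (s.kap (k + 1) : ℝ) ^ 4 * k * s.L (k + 1)) := by
      rw [ENNReal.ofReal_mul (by positivity), ENNReal.ofReal_natCast]
      congr 1
      rw [← ENNReal.ofReal_natCast]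
      congr 1
      push_cast
      ring
    calc (k : ℝ≥0∞) = ENNReal.ofReal (k : ℝ) := (ENNReal.ofReal_natCast k).symm
      _ ≤ ENNReal.ofReal ((30 * (s.kap (k + 1) : ℝ) ^ 4 * k * s.L (k + 1)) * (sig s k / 2)) := by
          apply ENNReal.ofReal_le_ofReal
          have hk : (0 : ℝ) ≤ k := Nat.cast_nonneg k
          calc (k : ℝ) = k * 1 := (mul_one _).symm
            _ ≤ k * (30 * (s.kap (k + 1) : ℝ) ^ 4 * s.L (k + 1) * (sig s k / 2)) :=
              mul_le_mul_of_nonneg_left h5 hk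
            _ = _ := by ring
      _ = ENNReal.ofReal (30 * (s.kap (k + 1) : ℝ) ^ 4 * k * s.L (k + 1)) *
          ENNReal.ofReal (sig s k / 2) := ENNReal.ofReal_mul (by positivity)
      _ ≤ _ := by rw [h4]; gcongr
  by_contra hne
  obtain ⟨k, hk⟩ := ENNReal.exists_nat_gt hne
  exact absurd (hkey k) (not_le.2 hk)

/-! ### Reflections -/

theorem near3_neg (a L : ℕ) (z : ℤ_[3]) : near3 a L (-z) ↔ near3 a L z := by
  have h : ∀ z : ℤ_[3], near3 a L z → near3 a L (-z) := by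
    rintro z ⟨i, hi, h⟩
    refine ⟨-i, by rwa [abs_neg], ?_⟩
    rw [map_neg, h]
    push_cast
    rfl
  exact ⟨fun h' => by simpa using h _ h', h z⟩

theorem near5_neg (a L : ℕ) (z : ℤ_[5]) : near5 a L (-z) ↔ near5 a L z := by
  have h : ∀ z : ℤ_[5], near5 a L z → near5 a L (-z) := by
    rintro z ⟨i, hi, h⟩
    refine ⟨-i, by rwa [abs_neg], ?_⟩
    rw [map_neg, h]
    push_cast
    rfl
  exact ⟨fun h' => by simpa using h _ h', h z⟩

theorem env_neg2 (s : Scales) (u : Ph) (v : Pt) :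
    v ∈ envB s (u.1, -u.2) ↔ (v.1, -v.2) ∈ envB s u := by
  unfold envB
  simp only [Set.mem_ofPred_eq]
  refine forall_congr' fun k => not_congr (and_congr Iff.rfl ?_)
  have : -u.2 + (v.2 : ℤ_[5]) = -(u.2 + ((-v.2 : ℤ) : ℤ_[5])) := by
    push_cast
    ring
  rw [this, near5_neg]

theorem env_neg1 (s : Scales) (u : Ph) (v : Pt) :
    v ∈ envB s (-u.1, u.2) ↔ (-v.1, v.2) ∈ envB s u := by
  unfold envB
  simp only [Set.mem_ofPred_eq]
  refine forall_congr' fun k => not_congr (and_congr ?_ Iff.rfl)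
  have : -u.1 + (v.1 : ℤ_[3]) = -(u.1 + ((-v.1 : ℤ) : ℤ_[3])) := by
    push_cast
    ring
  rw [this, near3_neg]

/-- the reflections of the plane: `(x,y) ↦ (y,x)` and `(x,y) ↦ (-y,-x)` -/
def Rf (b : Bool) (x : Fin 2 → ℤ) : Fin 2 → ℤ := if b then ![x 1, x 0] else ![-x 1, -x 0]

theorem Rf_Rf (b : Bool) (x : Fin 2 → ℤ) : Rf b (Rf b x) = x := by
  funext i
  cases b <;> fin_cases i <;> simp [Rf]

/-- the reflection of configurations -/
def Tf (b : Bool) (ω : Conf 2) : Conf 2 := fun x => ω (Rf b x)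

theorem Tf_meas (b : Bool) : Measurable (Tf b) :=
  measurable_pi_lambda _ fun x => measurable_pi_apply (Rf b x)

/-- the reflection as a measurable equivalence -/
def TE (b : Bool) : Conf 2 ≃ᵐ Conf 2 where
  toFun := Tf b
  invFun := Tf b
  left_inv ω := by funext x; simp only [Tf, Rf_Rf]
  right_inv ω := by funext x; simp only [Tf, Rf_Rf]
  measurable_toFun := Tf_meas b
  measurable_invFun := Tf_meas b

/-- the corresponding map of the phases -/
noncomputable def Nf (b : Bool) (u : Ph) : Ph := if b then (u.1, -u.2) else (-u.1, u.2)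

instance haar_neg (p : ℕ) [Fact p.Prime] : (haarZ p).IsNegInvariant := by
  unfold haarZ
  infer_instance

theorem Nf_mp (b : Bool) : MeasurePreserving (Nf b) muPh muPh := by
  cases b
  · have h1 : MeasurePreserving (fun z : ℤ_[3] => -z) (haarZ 3) (haarZ 3) :=
      Measure.measurePreserving_neg _
    have h2 : MeasurePreserving (fun z : ℤ_[5] => z) (haarZ 5) (haarZ 5) := MeasurePreserving.id _
    exact h1.prod h2
  · have h1 : MeasurePreserving (fun z : ℤ_[5] => -z) (haarZ 5) (haarZ 5) :=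
      Measure.measurePreserving_neg _
    have h2 : MeasurePreserving (fun z : ℤ_[3] => z) (haarZ 3) (haarZ 3) := MeasurePreserving.id _
    exact h2.prod h1

theorem conf_Nf (s : Scales) (b : Bool) (u : Ph) : confOf s (Nf b u) = Tf b (confOf s u) := by
  funext x
  unfold confOf Tf
  congr 1
  apply propext
  cases b
  · show toPQ x ∈ envB s (-u.1, u.2) ↔ _
    rw [env_neg1]
    have : ((-(toPQ x).1, (toPQ x).2) : Pt) = toPQ (Rf false x) := by
      simp only [toPQ, Rf]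
      ext <;> simp <;> ring
    rw [this]
  · show toPQ x ∈ envB s (u.1, -u.2) ↔ _
    rw [env_neg2]
    have : (((toPQ x).1, -(toPQ x).2) : Pt) = toPQ (Rf true x) := by
      simp only [toPQ, Rf]
      ext <;> simp <;> ring
    rw [this]

theorem Tf_mp (s : Scales) (b : Bool) : MeasurePreserving (Tf b) (Qm s) (Qm s) := by
  refine ⟨Tf_meas b, ?_⟩
  unfold Qm
  rw [Measure.map_map (Tf_meas b) (P9b_holds s)]
  have h : Tf b ∘ confOf s = confOf s ∘ Nf b := by
    funext u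
    exact (conf_Nf s b u).symm
  rw [h, ← Measure.map_map (P9b_holds s) (Nf_mp b).measurable, (Nf_mp b).map_eq]

theorem Rf_smul (b : Bool) (k : ℤ) (x : Fin 2 → ℤ) : Rf b (k • x) = k • Rf b x := by
  funext i
  cases b <;> fin_cases i <;> simp [Rf]

theorem gap_Tf (b : Bool) (ω : Conf 2) (e e' : Fin 2 × Bool) (he : Rf b (dirVec e) = dirVec e') :
    gap (Tf b ω) 0 e = gap ω 0 e' := by
  unfold gap Tf
  congr 1
  ext k
  simp only [Set.mem_ofPred_eq, zero_add, Rf_smul, he]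

theorem mom_refl (φ : ℕ → ℝ≥0∞) (s : Scales) (b : Bool) (e e' : Fin 2 × Bool)
    (he : Rf b (dirVec e) = dirVec e') :
    ∫⁻ ω in Om0 2, φ (gap ω 0 e) ∂(Qm s) = ∫⁻ ω in Om0 2, φ (gap ω 0 e') ∂(Qm s) := by
  rw [← lintegral_indicator om0_meas, ← lintegral_indicator om0_meas,
    ← (Tf_mp s b).lintegral_comp_emb (TE b).measurableEmbedding]
  refine lintegral_congr fun ω => ?_
  have h0 : Tf b ω ∈ Om0 2 ↔ ω ∈ Om0 2 := by
    have : Rf b 0 = 0 := by
      funext i
      cases b <;> fin_cases i <;> simp [Rf]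
    show ω (Rf b 0) = true ↔ ω 0 = true
    rw [this]
  by_cases h : ω ∈ Om0 2
  · rw [Set.indicator_of_mem (h0.2 h), Set.indicator_of_mem h, gap_Tf b ω e e' he]
  · rw [Set.indicator_of_notMem (fun h' => h (h0.1 h')), Set.indicator_of_notMem h]

theorem mom_all (φ : ℕ → ℝ≥0∞) (s : Scales) (hg : Good φ s) (e : Fin 2 × Bool) :
    ∫⁻ ω in Om0 2, φ (gap ω 0 e) ∂(Qm s) = ∞ := by
  have h0 := mom0 φ s hg
  have h1 := mom_refl φ s true ((0 : Fin 2), true) ((1 : Fin 2), true) (by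
    funext i; fin_cases i <;> simp [Rf, dirVec])
  have h2 := mom_refl φ s false ((0 : Fin 2), true) ((1 : Fin 2), false) (by
    funext i; fin_cases i <;> simp [Rf, dirVec])
  have h3 := mom_refl φ s false ((1 : Fin 2), true) ((0 : Fin 2), false) (by
    funext i; fin_cases i <;> simp [Rf, dirVec])
  obtain ⟨i, b⟩ := e
  fin_cases i <;> cases b
  · exact (h3.symm.trans (h1.symm.trans h0))
  · exact h0
  · exact h2.symm.trans h0
  · exact h1.symm.trans h0

theorem main (φ : ℕ → ℝ≥0∞)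
    (hφ : ∀ C : ℕ, ∃ n0 : ℕ, ∀ n ≥ n0, (C : ℝ≥0∞) * n ≤ φ n) :
    ∃ Q : Measure (Conf 2), IsPointProcess 2 Q ∧
    (∀ e : Fin 2 × Bool, ∫⁻ ω, φ (gap ω 0 e) ∂(ProbabilityTheory.cond Q (Om0 2)) = ∞) ∧
    ∃ D : Matrix (Fin 2) (Fin 2) ℝ, D.PosDef ∧
      ∀ᵐ ω ∂(ProbabilityTheory.cond Q (Om0 2)),
        Tendsto (fun n : ℕ => scaledLaw ω n) atTop
          (𝓝 (⟨multivariateGaussian 0 D, inferInstance⟩ :
            ProbabilityMeasure (EuclideanSpace ℝ (Fin 2)))) := by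
  obtain ⟨s, hg⟩ := exists_good φ hφ
  have h9a := P9a_holds
  have h9b := P9b_holds
  have h10a := R325.PP.P10a_holds h9a h9b P9d_holds s
  have hprob : IsProbabilityMeasure (Qm s) := by
    have : IsProbabilityMeasure muPh := h9a
    exact Measure.isProbabilityMeasure_map (h9b s).aemeasurable
  refine ⟨Qm s, ⟨hprob, P9c_holds s, ?_⟩, ?_, ?_⟩
  · have hm : MeasurableSet (Om0 2) := om0_meas
    have hsub : {ω : Conf 2 | ∀ x, ω x = false} ⊆ (Om0 2)ᶜ := by
      intro ω hω h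
      have h1 : ω 0 = true := h
      have h2 := hω 0
      rw [h1] at h2
      exact absurd h2 (by simp)
    refine lt_of_le_of_lt (measure_mono hsub) ?_
    rw [prob_compl_eq_one_sub hm]
    exact ENNReal.sub_lt_self ENNReal.one_ne_top one_ne_zero h10a.ne'
  · intro e
    unfold ProbabilityTheory.cond
    rw [lintegral_smul_measure, mom_all φ s hg e, smul_eq_mul]
    apply ENNReal.mul_top
    rw [Ne, ENNReal.inv_eq_zero]
    exact measure_ne_top _ _
  · obtain ⟨σ11, σ12, σ22, h1, h2⟩ := P12s s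
    exact ⟨_, covD_posDef σ11 σ12 σ22 h1, clt_explicit s σ11 σ12 σ22
      (fun a b => le_trans (by positivity) (h1 a b)) h2⟩

end Pool.Agent.KS6_36.NoMoment
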