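import Pool.Graph.R_seed8.R102.PP.P8

/-! Scales with arbitrarily fast growth of the hole radii. -/

set_option autoImplicit false

namespace Pool.Agent.KS6_36.NoMoment

open Pool.Agent.R196.PP

/-- the hole radius -/
def LG (g : ℕ → ℕ → ℕ) (k a b : ℕ) : ℕ :=
  (3 ^ a * 5 ^ b * (2 * ((kpN k a b) ^ 6 + g k (kpN k a b)) + 1) - 1) / 2

/-- the state `(aM, bN, L, kap)` -/
def stG (g : ℕ → ℕ → ℕ) : ℕ → ℕ × ℕ × ℕ × ℕ
  | 0 => (0, 0, 0, 0)
  | k + 1 => (Nat.clog 3 ((kpN k (stG g k).1 (stG g k).2.1) ^ 2 * LG g k (stG g k).1 (stG g k).2.1),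
      Nat.clog 5 ((kpN k (stG g k).1 (stG g k).2.1) ^ 2 * LG g k (stG g k).1 (stG g k).2.1),
      LG g k (stG g k).1 (stG g k).2.1, kpN k (stG g k).1 (stG g k).2.1)

theorem LG_eq (g : ℕ → ℕ → ℕ) (k a b : ℕ) :
    2 * LG g k a b + 1 = 3 ^ a * 5 ^ b * (2 * ((kpN k a b) ^ 6 + g k (kpN k a b)) + 1) := by
  unfold LG
  obtain ⟨m, hm⟩ := odd35 a b ((kpN k a b) ^ 6 + g k (kpN k a b))
  rw [hm]
  omega

theorem LG_big0 (g : ℕ → ℕ → ℕ) (k a b : ℕ) :
    (kpN k a b) ^ 6 + g k (kpN k a b) ≤ LG g k a b := by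
  have h := LG_eq g k a b
  have h2 : 1 ≤ 3 ^ a * 5 ^ b := Nat.one_le_iff_ne_zero.2 (by positivity)
  have h3 : 1 * (2 * ((kpN k a b) ^ 6 + g k (kpN k a b)) + 1) ≤
      3 ^ a * 5 ^ b * (2 * ((kpN k a b) ^ 6 + g k (kpN k a b)) + 1) :=
    Nat.mul_le_mul_right _ h2
  omega

theorem LG_big (g : ℕ → ℕ → ℕ) (k a b : ℕ) : (kpN k a b) ^ 6 ≤ LG g k a b :=
  le_trans (Nat.le_add_right _ _) (LG_big0 g k a b)

theorem LG_big' (g : ℕ → ℕ → ℕ) (k a b : ℕ) : 10 ^ 10 * (3 ^ a * 5 ^ b) ≤ LG g k a b := by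
  refine le_trans (kpN_big k a b) (le_trans ?_ (LG_big g k a b))
  have h2 : 0 < 3 ^ a * 5 ^ b := by positivity
  have h3 : 0 < kpN k a b := lt_of_lt_of_le (by positivity) (kpN_big k a b)
  calc kpN k a b = (kpN k a b) ^ 1 := (pow_one _).symm
    _ ≤ (kpN k a b) ^ 6 := Nat.pow_le_pow_right h3 (by norm_num)

/-- Scales with a prescribed growth of the hole radii. -/
theorem exists_scales (g : ℕ → ℕ → ℕ) :
    ∃ s : Scales, ∀ k, g k (s.kap (k + 1)) ≤ s.L (k + 1) := by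
  -- facts about one step
  have hW : ∀ a b : ℕ, 1 ≤ 3 ^ a * 5 ^ b := fun a b => Nat.one_le_iff_ne_zero.2 (by positivity)
  have hk1 : ∀ k a b : ℕ, 10 ^ 10 ≤ kpN k a b := fun k a b =>
    le_trans (by have := hW a b; omega) (kpN_big k a b)
  have hx : ∀ k a b : ℕ, LG g k a b * 100 ≤ (kpN k a b) ^ 2 * LG g k a b := by
    intro k a b
    rw [mul_comm]
    apply Nat.mul_le_mul_right
    have := hk1 k a b
    calc 100 ≤ 10 ^ 10 * 10 ^ 10 := by norm_num
      _ ≤ kpN k a b * kpN k a b := Nat.mul_le_mul this this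
      _ = _ := by ring
  have hL1 : ∀ k a b : ℕ, 10 ^ 10 ≤ LG g k a b := fun k a b =>
    le_trans (by have := hW a b; omega) (LG_big' g k a b)
  have hL2 : ∀ k : ℕ, (stG g k).2.2.1 ≤ 3 ^ (stG g k).1 := by
    intro k
    cases k with
    | zero => simp [stG]
    | succ k =>
      simp only [stG]
      refine le_trans ?_ (Nat.le_pow_clog (by norm_num) _)
      have := hx k (stG g k).1 (stG g k).2.1
      omega
  have hw3 : ∀ a b : ℕ, 3 ^ a ≤ 3 ^ a * 5 ^ b := fun a b =>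
    Nat.le_mul_of_pos_right _ (by positivity)
  have hw5 : ∀ a b : ℕ, 5 ^ b ≤ 3 ^ a * 5 ^ b := fun a b =>
    Nat.le_mul_of_pos_left _ (by positivity)
  have hmon3 : ∀ k, (stG g k).1 ≤ (stG g (k + 1)).1 := by
    intro k
    have h1 : 3 ^ (stG g k).1 ≤ 3 ^ (stG g (k + 1)).1 := by
      simp only [stG]
      refine le_trans ?_ (Nat.le_pow_clog (by norm_num) _)
      have h2 := hx k (stG g k).1 (stG g k).2.1
      have h3 := LG_big' g k (stG g k).1 (stG g k).2.1
      have h4 := hw3 (stG g k).1 (stG g k).2.1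
      omega
    exact (Nat.pow_le_pow_iff_right (by norm_num)).1 h1
  have hmon5 : ∀ k, (stG g k).2.1 ≤ (stG g (k + 1)).2.1 := by
    intro k
    have h1 : 5 ^ (stG g k).2.1 ≤ 5 ^ (stG g (k + 1)).2.1 := by
      simp only [stG]
      refine le_trans ?_ (Nat.le_pow_clog (by norm_num) _)
      have h2 := hx k (stG g k).1 (stG g k).2.1
      have h3 := LG_big' g k (stG g k).1 (stG g k).2.1
      have h4 := hw5 (stG g k).1 (stG g k).2.1
      omega
    exact (Nat.pow_le_pow_iff_right (by norm_num)).1 h1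
  refine ⟨{
    aM := fun k => (stG g k).1
    bN := fun k => (stG g k).2.1
    L := fun k => (stG g k).2.2.1
    kap := fun k => (stG g k).2.2.2
    aM0 := rfl
    bN0 := rfl
    L0 := rfl
    aMs := hmon3
    bNs := hmon5
    step := ?_
    kap_big := ?_
    L_big := ?_
    lowM := ?_
    lowN := ?_
    upM := ?_
    upN := ?_ }, fun k => le_trans (Nat.le_add_left _ _) (LG_big0 g k _ _)⟩
  · intro k
    have hcop : ∀ a b : ℕ, Nat.Coprime (3 ^ a) (5 ^ b) := fun a b =>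
      Nat.Coprime.pow _ _ (by decide)
    refine ⟨pow_dvd_pow _ (hmon3 k), pow_dvd_pow _ (hmon5 k), Odd.pow (by decide),
      Odd.pow (by decide), hcop _ _, ?_, ?_, ?_, ?_, ?_⟩
    · have ho : Odd (5 ^ (stG g k).2.1 * (2 * ((kpN k (stG g k).1 (stG g k).2.1) ^ 6 +
        g k (kpN k (stG g k).1 (stG g k).2.1)) + 1)) :=
        (Odd.pow (by decide)).mul ⟨_, rfl⟩
      obtain ⟨c, hc⟩ := ho
      refine ⟨c, ?_⟩
      show 2 * LG g k (stG g k).1 (stG g k).2.1 + 1 = _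
      rw [LG_eq, ← hc]
      ring
    · have ho : Odd (3 ^ (stG g k).1 * (2 * ((kpN k (stG g k).1 (stG g k).2.1) ^ 6 +
        g k (kpN k (stG g k).1 (stG g k).2.1)) + 1)) :=
        (Odd.pow (by decide)).mul ⟨_, rfl⟩
      obtain ⟨c, hc⟩ := ho
      refine ⟨c, ?_⟩
      show 2 * LG g k (stG g k).1 (stG g k).2.1 + 1 = _
      rw [LG_eq, ← hc]
      ring
    · show 8 * LG g k (stG g k).1 (stG g k).2.1 + 5 ≤ 3 ^ Nat.clog 3 _
      refine le_trans ?_ (Nat.le_pow_clog (by norm_num) _)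
      have h2 := hx k (stG g k).1 (stG g k).2.1
      have h3 := hL1 k (stG g k).1 (stG g k).2.1
      omega
    · show 8 * LG g k (stG g k).1 (stG g k).2.1 + 5 ≤ 5 ^ Nat.clog 5 _
      refine le_trans ?_ (Nat.le_pow_clog (by norm_num) _)
      have h2 := hx k (stG g k).1 (stG g k).2.1
      have h3 := hL1 k (stG g k).1 (stG g k).2.1
      omega
    · show 25 * (stG g k).2.2.1 + 4 ≤ LG g k (stG g k).1 (stG g k).2.1
      have h1 := hL2 k
      have h2 := LG_big' g k (stG g k).1 (stG g k).2.1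
      have h3 := hw3 (stG g k).1 (stG g k).2.1
      have h4 := hW (stG g k).1 (stG g k).2.1
      omega
  · intro k
    exact le_rfl
  · intro k
    exact LG_big _ _ _ _
  · intro k
    exact Nat.le_pow_clog (by norm_num) _
  · intro k
    exact Nat.le_pow_clog (by norm_num) _
  · intro k
    apply up_clog 3 _ (by norm_num)
    have h2 := hx k (stG g k).1 (stG g k).2.1
    have h3 := hL1 k (stG g k).1 (stG g k).2.1
    show 1 < (kpN k (stG g k).1 (stG g k).2.1) ^ 2 * LG g k (stG g k).1 (stG g k).2.1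
    omega
  · intro k
    apply up_clog 5 _ (by norm_num)
    have h2 := hx k (stG g k).1 (stG g k).2.1
    have h3 := hL1 k (stG g k).1 (stG g k).2.1
    show 1 < (kpN k (stG g k).1 (stG g k).2.1) ^ 2 * LG g k (stG g k).1 (stG g k).2.1
    omega

end Pool.Agent.KS6_36.NoMoment
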